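import Mathlib
import Pool.Agent.MP_7d36bd_gt.H73.Haus

set_option autoImplicit false

namespace Pool.Agent.Results.MP_7d36bd_gt.Hausdorff

open Set

/-- Every open cover of every subspace has a countable subcover. -/
def IsHereditarilyLindelof (X : Type) [TopologicalSpace X] : Prop :=
  ∀ (Y : Set X) (𝒰 : Set (Set Y)), (∀ V ∈ 𝒰, IsOpen V) → ⋃₀ 𝒰 = univ →
    ∃ 𝒱 : Set (Set Y), 𝒱 ⊆ 𝒰 ∧ 𝒱.Countable ∧ ⋃₀ 𝒱 = univ

/-- Every assignment of open neighbourhoods has a kernel that is discrete in the subspace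
topology. -/
def IsDuallyDiscrete (X : Type) [TopologicalSpace X] : Prop :=
  ∀ U : X → Set X, (∀ x, IsOpen (U x) ∧ x ∈ U x) →
    ∃ D : Set X, DiscreteTopology D ∧ ⋃ x ∈ D, U x = univ

/-- There is a hereditarily Lindelöf Hausdorff space that is not dually discrete. -/
theorem result :
    ∃ (X : Type) (_ : TopologicalSpace X), T2Space X ∧
      IsHereditarilyLindelof X ∧ ¬ IsDuallyDiscrete X := by
  let τ := MP_7d36bd_gt.H73.top
  have hL := MP_7d36bd_gt.H73.hl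
  refine ⟨MP_7d36bd_gt.H41.Tr, τ, MP_7d36bd_gt.H73.t2, ?_, MP_7d36bd_gt.H73.not_dd⟩
  intro Y 𝒰 hop hcov
  have hY : IsLindelof Y := hL.1 Y (subset_univ _)
  have hY' : LindelofSpace Y := isLindelof_iff_lindelofSpace.mp hY
  obtain ⟨r, hr, hsub⟩ := (isLindelof_univ (X := Y)).elim_countable_subcover
    (fun V : 𝒰 => (V : Set Y)) (fun V => hop V V.2) (by
      intro y _
      have : y ∈ ⋃₀ 𝒰 := hcov ▸ mem_univ y
      obtain ⟨V, hV, hy⟩ := this
      exact mem_iUnion.mpr ⟨⟨V, hV⟩, hy⟩)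
  refine ⟨Subtype.val '' r, ?_, hr.image _, eq_univ_of_forall fun y => ?_⟩
  · rintro _ ⟨V, -, rfl⟩
    exact V.2
  · obtain ⟨V, hV, hy⟩ := mem_iUnion₂.mp (hsub (mem_univ y))
    exact ⟨V, mem_image_of_mem _ hV, hy⟩

end Pool.Agent.Results.MP_7d36bd_gt.Hausdorff
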